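import Pool.Agent.H38.AG.Targets

/-!
The module `NUS`: the loss is small.
-/

set_option autoImplicit false

open Pool.Agent.H38.RB Pool.Agent.H38.PS Pool.Agent.H82.RD Pool.Agent.H38.AB Pool.Agent.H38.AG

namespace Pool.Agent.H79.AG

theorem pf_NUS : T_NUS := by
  intro K₀ ε hK hε
  set A : ℝ := 11 * (K₀ + 6) with hA
  have hA0 : 0 < A := by positivity
  set δ : ℝ := ε / (2 * A) with hδ
  have hδ0 : 0 < δ := by positivity
  refine ⟨δ, Real.exp |A * (-1 - Real.log δ)|, hδ0, Real.one_le_exp (abs_nonneg _), ?_⟩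
  intro X Ω V hX hΩ hV
  set y : ℝ := Real.log X with hy
  have hX0 : 0 < X := by linarith
  have hye : Real.exp 1 ≤ y := by
    have h1 : Real.log 16 ≤ y := Real.log_le_log (by norm_num) hX
    have h2 : Real.log 16 = 4 * Real.log 2 := by
      rw [show (16 : ℝ) = 2 ^ (4 : ℕ) by norm_num, Real.log_pow]
      push_cast
      ring
    have h3 := Real.exp_one_lt_d9
    have h4 := Real.log_two_gt_d9
    linarith
  have hy0 : 0 < y := (Real.exp_pos 1).trans_le hye
  have hy1 : 1 ≤ y := by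
    have := Real.add_one_le_exp (1 : ℝ)
    linarith
  set ll : ℝ := Real.log y with hll
  have hll1 : 1 ≤ ll := by
    rw [hll, Real.le_log_iff_exp_le hy0]
    exact hye
  have hyK : 1 ≤ y ^ K₀ := Real.one_le_rpow hy1 (by linarith)
  set b : ℝ := ((V : ℝ) + 2) * (4 * y + 4) with hb
  have hV0 : (0 : ℝ) ≤ V := Nat.cast_nonneg _
  have hb0 : 0 < b := by positivity
  have hb1 : b ≤ 56 * (y ^ K₀ * y) := by
    have h1 : (V : ℝ) + 2 ≤ 7 * y ^ K₀ := by linarith
    have h2 : 4 * y + 4 ≤ 8 * y := by linarith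
    calc b ≤ (7 * y ^ K₀) * (8 * y) := mul_le_mul h1 h2 (by positivity) (by positivity)
      _ = 56 * (y ^ K₀ * y) := by ring
  have hlog56 : Real.log 56 ≤ 5 := by
    rw [Real.log_le_iff_le_exp (by norm_num)]
    have h1 : Real.exp 5 = Real.exp 1 ^ 5 := by
      rw [← Real.exp_nat_mul]
      norm_num
    have h2 : (2.7 : ℝ) ≤ Real.exp 1 := by
      have := Real.exp_one_gt_d9
      linarith
    rw [h1]
    calc (56 : ℝ) ≤ 2.7 ^ 5 := by norm_num
      _ ≤ Real.exp 1 ^ 5 := pow_le_pow_left₀ (by norm_num) h2 5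
  have hlb : Real.log b ≤ (K₀ + 6) * ll := by
    have h1 : Real.log b ≤ Real.log (56 * (y ^ K₀ * y)) := Real.log_le_log hb0 hb1
    have h1' : Real.log (56 * (y ^ K₀ * y)) = Real.log 56 + (K₀ * Real.log y + Real.log y) := by
      rw [Real.log_mul (by norm_num) (by positivity), Real.log_mul (by positivity) hy0.ne',
        Real.log_rpow hy0]
    rw [h1', ← hll] at h1
    have h2 : (5 : ℝ) ≤ 5 * ll := by linarith
    nlinarith
  have hlog : A * ll ≤ ε / 2 * y + A * (-1 - Real.log δ) := by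
    have h1 := Real.log_le_sub_one_of_pos (mul_pos hδ0 hy0)
    rw [Real.log_mul hδ0.ne' hy0.ne'] at h1
    have h2 : ll ≤ δ * y - 1 - Real.log δ := by linarith
    have h3 := mul_le_mul_of_nonneg_left h2 hA0.le
    have h4 : A * (δ * y - 1 - Real.log δ) = ε / 2 * y + A * (-1 - Real.log δ) := by
      rw [hδ]
      field_simp
      ring
    linarith
  have hΩ0 : (0 : ℝ) ≤ Ω := Nat.cast_nonneg _
  have hmain : ((11 * (Ω + 1) : ℕ) : ℝ) * Real.log b ≤ ε * y + |A * (-1 - Real.log δ)| := by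
    push_cast
    have h1 : 11 * ((Ω : ℝ) + 1) * Real.log b ≤ 11 * ((Ω : ℝ) + 1) * ((K₀ + 6) * ll) :=
      mul_le_mul_of_nonneg_left hlb (by positivity)
    have h2 : 11 * ((Ω : ℝ) + 1) * ((K₀ + 6) * ll) = A * (Ω * ll) + A * ll := by
      rw [hA]
      ring
    have h3 : A * (Ω * ll) ≤ ε / 2 * y := by
      have h4 := mul_le_mul_of_nonneg_left hΩ hA0.le
      have h5 : A * (δ * y) = ε / 2 * y := by
        rw [hδ]
        field_simp
      linarith
    have h6 := le_abs_self (A * (-1 - Real.log δ))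
    linarith
  have hLo : Lo 11 X Ω V = b ^ (11 * (Ω + 1)) := rfl
  rw [hLo, ← Real.exp_log hb0, ← Real.exp_nat_mul]
  have hXε : X ^ ε = Real.exp (ε * y) := by
    rw [Real.rpow_def_of_pos hX0, mul_comm]
  rw [hXε, ← Real.exp_add]
  apply Real.exp_le_exp.2
  linarith

end Pool.Agent.H79.AG
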