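import Pool.Agent.H38.AG.Targets
import Pool.Agent.H13.PS.LP2

/-!
The module `RED`: the triples which are not reduced.
-/

set_option autoImplicit false

open Pool.Agent.H38.RB Pool.Agent.H38.PS Pool.Agent.H82.RD Pool.Agent.H38.AB Pool.Agent.H38.AG

namespace Pool.Agent.H79.AG

theorem red_pd {x : Fin 3 → ℤ} (hx : Adm x) (P : ℕ → Prop) [DecidablePred P] :
    pd ((pr x).primeFactors.filter P) = pd ((x 0).natAbs.primeFactors.filter P) *
      pd ((x 1).natAbs.primeFactors.filter P) * pd ((x 2).natAbs.primeFactors.filter P) := by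
  classical
  have h01 : (0 : Fin 3) ≠ 1 := by decide
  have h02 : (0 : Fin 3) ≠ 2 := by decide
  have h12 : (1 : Fin 3) ≠ 2 := by decide
  rw [Pool.Agent.H13.PS.pf_perm hx h01 h02 h12]
  have d1 : Disjoint (x 0).natAbs.primeFactors (x 1).natAbs.primeFactors :=
    (Pool.Agent.H13.PS.adm_cop hx h01).disjoint_primeFactors
  have d2 : Disjoint (x 0).natAbs.primeFactors (x 2).natAbs.primeFactors :=
    (Pool.Agent.H13.PS.adm_cop hx h02).disjoint_primeFactors
  have d3 : Disjoint (x 1).natAbs.primeFactors (x 2).natAbs.primeFactors :=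
    (Pool.Agent.H13.PS.adm_cop hx h12).disjoint_primeFactors
  unfold pd
  rw [Finset.filter_union, Finset.filter_union, Finset.prod_union, Finset.prod_union]
  · exact Finset.disjoint_filter_filter d1
  · rw [Finset.disjoint_union_left]
    exact ⟨Finset.disjoint_filter_filter d2, Finset.disjoint_filter_filter d3⟩

theorem pf_RED (hRD1 : T_RD1) (hRD2 : T_RD2) (hOMG : T_OMG) (hTFI : T_TFI) : T_RED := by
  classical
  intro ρ hρ
  obtain ⟨K, δ, X₀, hK, hδ0, hδ, hX₀, hO⟩ := hOMG (ρ / 3) (by positivity)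
  obtain ⟨c₁, c, C, hc₁, hc, hC, h2⟩ := hRD2 K δ (by linarith) hδ0
  obtain ⟨c', C', hc', hC', h1⟩ := hRD1 (min c₁ ρ) (lt_min hc₁ hρ)
  obtain ⟨C'', hC'', h3⟩ := hTFI (1 / 3) (by norm_num)
  set X₁ : ℝ := max X₀ 3 with hX₁
  have hX₁3 : 3 ≤ X₁ := le_max_right _ _
  set d : ℝ := min (min c c') (2 / 3) with hd
  have hd0 : 0 < d := lt_min (lt_min hc hc') (by norm_num)
  have hdc : d ≤ c := (min_le_left _ _).trans (min_le_left _ _)
  have hdc' : d ≤ c' := (min_le_left _ _).trans (min_le_right _ _)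
  have hd23 : d ≤ 2 / 3 := min_le_right _ _
  refine ⟨d, C + C' + C'' * X₁, hd0, by positivity, ?_⟩
  intro X hX
  have hX0 : 0 < X := by linarith
  have hX1 : 1 ≤ X := by linarith
  have hXd : 1 ≤ X ^ (2 / 3 - d) := Real.one_le_rpow hX1 (by linarith)
  by_cases hbig : X₁ ≤ X
  · have hX0' : X₀ ≤ X := (le_max_left _ _).trans hbig
    have hX3 : 3 ≤ X := hX₁3.trans hbig
    have hlog : 1 ≤ Real.log X := by
      rw [Real.le_log_iff_exp_le hX0]
      have := Real.exp_one_lt_d9
      linarith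
    obtain ⟨f1, n1⟩ := h1 X hX1
    obtain ⟨f2, n2⟩ := h2 X hX3
    set S1 := {x | Adm x ∧ (pd (pr x).primeFactors : ℝ) ≤ X ∧
      ∃ i, (pd (x i).natAbs.primeFactors : ℝ) ≤ X ^ (1 / 3 - min c₁ ρ)} with hS1
    set S2 := {x | Adm x ∧ (pd (pr x).primeFactors : ℝ) ≤ X ∧
      (∀ i, X ^ (1 / 3 - c₁) ≤ (pd (x i).natAbs.primeFactors : ℝ)) ∧
      ∃ i, X ^ δ ≤ (pd ((x i).natAbs.primeFactors.filter
        fun p => (p : ℝ) ≤ Real.log X ^ K) : ℝ)} with hS2
    have hsub : {x | Adm x ∧ (pd (pr x).primeFactors : ℝ) ≤ X ∧ x ∉ Rd X ρ} ⊆ S1 ∪ S2 := by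
      rintro x ⟨hA, hpd, hnR⟩
      by_contra hcon
      rw [Set.mem_union, not_or] at hcon
      obtain ⟨hn1, hn2⟩ := hcon
      have g1 : ∀ i, X ^ (1 / 3 - min c₁ ρ) < (pd (x i).natAbs.primeFactors : ℝ) := by
        intro i
        by_contra hi
        push Not at hi
        exact hn1 ⟨hA, hpd, i, hi⟩
      have g2 : ∀ i, X ^ (1 / 3 - c₁) ≤ (pd (x i).natAbs.primeFactors : ℝ) := by
        intro i
        refine le_trans (Real.rpow_le_rpow_of_exponent_le hX1 ?_) (g1 i).le
        linarith [min_le_left c₁ ρ]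
      have g3 : ∀ i, (pd ((x i).natAbs.primeFactors.filter
          fun p => (p : ℝ) ≤ Real.log X ^ K) : ℝ) ≤ X ^ δ := by
        intro i
        by_contra hi
        push Not at hi
        exact hn2 ⟨hA, hpd, g2, i, hi.le⟩
      have g4 : (pd ((pr x).primeFactors.filter fun p => (p : ℝ) ≤ Real.log X ^ K) : ℝ) ≤
          X ^ (3 * δ) := by
        rw [red_pd hA]
        push_cast
        have h4 : X ^ (3 * δ) = X ^ δ * X ^ δ * X ^ δ := by
          rw [← Real.rpow_add hX0, ← Real.rpow_add hX0]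
          congr 1
          ring
        rw [h4]
        apply mul_le_mul (mul_le_mul (g3 0) (g3 1) (by positivity) (by positivity)) (g3 2)
          (by positivity) (by positivity)
      apply hnR
      refine ⟨hA, hpd, ?_, ?_, ?_⟩
      · intro i
        refine le_trans (Real.rpow_le_rpow_of_exponent_le hX1 ?_) (g1 i).le
        linarith [min_le_right c₁ ρ]
      · have g5 : pd ((pr x).primeFactors.filter fun p => (p : ℝ) ≤ Real.log X ^ 30) ≤
            pd ((pr x).primeFactors.filter fun p => (p : ℝ) ≤ Real.log X ^ K) := by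
          unfold pd
          apply Finset.prod_le_prod_of_subset_of_one_le'
          · intro p hp
            rw [Finset.mem_filter] at hp ⊢
            refine ⟨hp.1, hp.2.trans ?_⟩
            have h6 : Real.log X ^ (30 : ℕ) = Real.log X ^ ((30 : ℕ) : ℝ) :=
              (Real.rpow_natCast _ _).symm
            rw [h6]
            apply Real.rpow_le_rpow_of_exponent_le hlog
            push_cast
            exact hK
          · intro p hp _
            rw [Finset.mem_filter] at hp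
            exact (Nat.prime_of_mem_primeFactors hp.1).one_lt.le
        have g6 : (pd ((pr x).primeFactors.filter fun p => (p : ℝ) ≤ Real.log X ^ 30) : ℝ) ≤
            (pd ((pr x).primeFactors.filter fun p => (p : ℝ) ≤ Real.log X ^ K) : ℝ) := by
          exact_mod_cast g5
        refine g6.trans (g4.trans ?_)
        apply Real.rpow_le_rpow_of_exponent_le hX1
        linarith
      · have g7 := hO X (pr x).primeFactors hX0' (fun p hp => Nat.prime_of_mem_primeFactors hp)
          hpd g4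
        refine g7.trans ?_
        have : 0 ≤ Real.log X := by linarith
        nlinarith
    refine ⟨(f1.union f2).subset hsub, ?_⟩
    have h4 : ({x | Adm x ∧ (pd (pr x).primeFactors : ℝ) ≤ X ∧ x ∉ Rd X ρ}.ncard : ℝ) ≤
        (S1.ncard : ℝ) + S2.ncard := by
      have h5 := (Set.ncard_le_ncard hsub (f1.union f2)).trans (Set.ncard_union_le S1 S2)
      exact_mod_cast h5
    refine h4.trans ?_
    have h5 : X ^ (2 / 3 - c') ≤ X ^ (2 / 3 - d) :=
      Real.rpow_le_rpow_of_exponent_le hX1 (by linarith)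
    have h6 : X ^ (2 / 3 - c) ≤ X ^ (2 / 3 - d) :=
      Real.rpow_le_rpow_of_exponent_le hX1 (by linarith)
    have h7 := mul_le_mul_of_nonneg_left h5 hC'.le
    have h8 := mul_le_mul_of_nonneg_left h6 hC.le
    have h9 : 0 ≤ C'' * X₁ * X ^ (2 / 3 - d) := by positivity
    have h10 : (C + C' + C'' * X₁) * X ^ (2 / 3 - d) =
        C * X ^ (2 / 3 - d) + C' * X ^ (2 / 3 - d) + C'' * X₁ * X ^ (2 / 3 - d) := by ring
    rw [h10]
    linarith
  · push Not at hbig
    obtain ⟨f3, n3⟩ := h3 X hX1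
    have hsub : {x | Adm x ∧ (pd (pr x).primeFactors : ℝ) ≤ X ∧ x ∉ Rd X ρ} ⊆
        {x | Adm x ∧ (pd (pr x).primeFactors : ℝ) ≤ X} := fun x hx => ⟨hx.1, hx.2.1⟩
    refine ⟨f3.subset hsub, ?_⟩
    have h4 : ({x | Adm x ∧ (pd (pr x).primeFactors : ℝ) ≤ X ∧ x ∉ Rd X ρ}.ncard : ℝ) ≤
        ({x | Adm x ∧ (pd (pr x).primeFactors : ℝ) ≤ X}.ncard : ℝ) := by
      exact_mod_cast Set.ncard_le_ncard hsub f3
    have h5 : X ^ (2 / 3 + 1 / 3 : ℝ) = X := by
      rw [show (2 / 3 + 1 / 3 : ℝ) = 1 by norm_num, Real.rpow_one]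
    rw [h5] at n3
    have h6 : C'' * X ≤ C'' * X₁ := mul_le_mul_of_nonneg_left hbig.le hC''.le
    have h7 : C'' * X₁ ≤ (C + C' + C'' * X₁) * X ^ (2 / 3 - d) := by
      have h8 : C'' * X₁ ≤ C + C' + C'' * X₁ := by linarith
      have h9 : 0 ≤ C + C' + C'' * X₁ := by positivity
      nlinarith
    linarith

end Pool.Agent.H79.AG
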